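import Pool.Agent.QPI.StmtsD
import Pool.Agent.Helper42_QPI.D_LEN

set_option autoImplicit false

/-!
# Squad QPI, row D_SBC: closure properties of `SB`
-/

namespace Pool.Agent.QPI.H23

open MvPolynomial Pool.Agent.QPI.H42

theorem J_zero {σ : Type} : J (0 : MvPolynomial σ ℚ) 0 := by
  refine ⟨fun α => ⟨0, by simp⟩, ?_⟩
  simp

theorem J_neg {σ : Type} {p : MvPolynomial σ ℚ} {x : ℚ} (hp : J p x) : J (-p) x := by
  refine ⟨fun α => ?_, ?_⟩
  · obtain ⟨z, hz⟩ := hp.1 α
    exact ⟨-z, by rw [MvPolynomial.coeff_neg, hz]; push_cast; ring⟩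
  · have h : (-p).support = p.support := by
      ext a
      simp [MvPolynomial.mem_support_iff]
    rw [h]
    simpa using hp.2

theorem J_natCast {σ : Type} (a : ℕ) : J (a : MvPolynomial σ ℚ) a := by
  have h := J_monomial (σ := σ) 0 (a : ℤ)
  have e : (monomial (0 : σ →₀ ℕ) ((a : ℤ) : ℚ)) = (a : MvPolynomial σ ℚ) := by
    rw [Int.cast_natCast]
    exact map_natCast (C : ℚ →+* MvPolynomial σ ℚ) a
  rw [e] at h
  refine J_mono h ?_
  rw [Int.cast_natCast, abs_of_nonneg (by positivity)]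

theorem SB_iff {σ : Type} (g : PowerSeries (MvPolynomial σ ℚ)) (a c : ℕ) :
    SB g a c ↔ ∀ μ, J (PowerSeries.coeff μ g) ((a : ℚ) * (c : ℚ) ^ μ) := by
  unfold SB IL J
  refine forall_congr' fun μ => ?_
  rw [show ((a * c ^ μ : ℕ) : ℚ) = (a : ℚ) * (c : ℚ) ^ μ by push_cast; ring]

/-- The convolution of geometric sequences. -/
theorem conv_le (c c' : ℚ) (hc : 0 ≤ c) (hc' : 0 ≤ c') (μ : ℕ) :
    ∑ x ∈ Finset.HasAntidiagonal.antidiagonal μ, c ^ x.1 * c' ^ x.2 ≤ (c + c') ^ μ := by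
  rw [(Commute.all c c').add_pow']
  refine Finset.sum_le_sum fun x hx => ?_
  have h1 : 1 ≤ μ.choose x.1 := by
    refine Nat.choose_pos ?_
    have := Finset.HasAntidiagonal.mem_antidiagonal.1 hx
    omega
  have h2 : (1 : ℚ) ≤ (μ.choose x.1 : ℚ) := by exact_mod_cast h1
  rw [nsmul_eq_mul]
  exact le_mul_of_one_le_left (by positivity) h2

theorem geom_le (L : ℚ) (hL : 1 ≤ L) (n : ℕ) :
    ∑ i ∈ Finset.range n, L * (2 * L) ^ i ≤ (2 * L) ^ n := by
  have h : ∑ i ∈ Finset.range n, L * (2 * L) ^ i + 1 ≤ (2 * L) ^ n := by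
    induction n with
    | zero => simp
    | succ n ih =>
      rw [Finset.sum_range_succ, pow_succ]
      have h1 : (0 : ℚ) ≤ (2 * L) ^ n := by positivity
      nlinarith
  linarith

theorem inv_J {σ : Type} (g : PowerSeries (MvPolynomial σ ℚ)) (L : ℚ) (hL : 1 ≤ L)
    (hg : ∀ μ, J (PowerSeries.coeff μ g) L) :
    ∀ μ, J (PowerSeries.coeff μ (PowerSeries.invOfUnit g 1)) ((2 * L) ^ μ) := by
  intro μ
  induction μ using Nat.strong_induction_on with
  | _ μ ih =>
    rw [PowerSeries.coeff_invOfUnit]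
    by_cases h0 : μ = 0
    · rw [if_pos h0, h0, pow_zero]
      simpa using J_one (σ := σ)
    · rw [if_neg h0]
      have e1 : -((((1 : (MvPolynomial σ ℚ)ˣ)⁻¹ : (MvPolynomial σ ℚ)ˣ)) : MvPolynomial σ ℚ) *
          ∑ x ∈ Finset.HasAntidiagonal.antidiagonal μ, (if x.2 < μ then
            PowerSeries.coeff x.1 g * PowerSeries.coeff x.2 (PowerSeries.invOfUnit g 1) else 0) =
          -∑ x ∈ Finset.HasAntidiagonal.antidiagonal μ, (if x.2 < μ then
            PowerSeries.coeff x.1 g * PowerSeries.coeff x.2 (PowerSeries.invOfUnit g 1) else 0) := by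
        rw [inv_one, Units.val_one, neg_mul, one_mul]
      rw [e1]
      refine J_neg ?_
      have h1 : J (∑ x ∈ Finset.HasAntidiagonal.antidiagonal μ, (if x.2 < μ then
            PowerSeries.coeff x.1 g * PowerSeries.coeff x.2 (PowerSeries.invOfUnit g 1) else 0))
          (∑ x ∈ Finset.HasAntidiagonal.antidiagonal μ, if x.2 < μ then L * (2 * L) ^ x.2 else 0) := by
        refine J_sum _ _ _ ?_
        intro x _
        split_ifs with hx
        · exact J_mul (hg x.1) (ih x.2 hx)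
        · exact J_zero
      refine J_mono h1 ?_
      rw [Finset.Nat.antidiagonal_eq_map', Finset.sum_map]
      refine le_trans (le_of_eq ?_) (geom_le L hL μ)
      rw [Finset.sum_range_succ]
      have e2 : (if ((⟨fun i => (μ - i, i), fun _ _ h => (Prod.ext_iff.1 h).2⟩ :
          ℕ ↪ ℕ × ℕ) μ).2 < μ then L * (2 * L) ^ ((⟨fun i => (μ - i, i),
            fun _ _ h => (Prod.ext_iff.1 h).2⟩ : ℕ ↪ ℕ × ℕ) μ).2 else 0) = 0 :=
        if_neg (lt_irrefl μ)
      rw [e2, add_zero]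
      refine Finset.sum_congr rfl fun i hi => ?_
      exact if_pos (Finset.mem_range.1 hi)

theorem d_sbc : SbcStmt := by
  intro σ g h a a' c c' L
  refine ⟨?_, ?_, ?_, ?_, ?_, ?_, ?_⟩
  · intro hg hh
    rw [SB_iff] at hg hh ⊢
    intro μ
    rw [map_add]
    refine J_mono (J_add (hg μ) (hh μ)) ?_
    push_cast
    exact (add_mul _ _ _).ge
  · intro hg hh
    rw [SB_iff] at hg hh ⊢
    intro μ
    rw [PowerSeries.coeff_mul]
    refine J_mono (J_sum _ _ (fun x => ((a : ℚ) * (c : ℚ) ^ x.1) * ((a' : ℚ) * (c' : ℚ) ^ x.2))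
      fun x _ => J_mul (hg x.1) (hh x.2)) ?_
    have e : ∑ x ∈ Finset.HasAntidiagonal.antidiagonal μ,
        ((a : ℚ) * (c : ℚ) ^ x.1) * ((a' : ℚ) * (c' : ℚ) ^ x.2) =
        ((a : ℚ) * a') * ∑ x ∈ Finset.HasAntidiagonal.antidiagonal μ, (c : ℚ) ^ x.1 * (c' : ℚ) ^ x.2 := by
      rw [Finset.mul_sum]
      refine Finset.sum_congr rfl fun x _ => ?_
      ring
    rw [e]
    push_cast
    exact mul_le_mul_of_nonneg_left (conv_le _ _ (by positivity) (by positivity) μ) (by positivity)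
  · intro hg
    rw [SB_iff] at hg ⊢
    intro μ
    unfold th
    rw [PowerSeries.coeff_mk]
    refine J_mono (J_mul (J_natCast μ) (hg μ)) ?_
    have h2 : (μ : ℚ) ≤ 2 ^ μ := by exact_mod_cast (Nat.lt_two_pow_self (n := μ)).le
    have h3 : (0 : ℚ) ≤ (a : ℚ) * (c : ℚ) ^ μ := by positivity
    push_cast
    rw [mul_pow]
    nlinarith [mul_le_mul_of_nonneg_right h2 h3]
  · intro hg
    rw [SB_iff] at hg ⊢
    intro μ
    rw [map_neg]
    exact J_neg (hg μ)
  · intro ha hc hg
    rw [SB_iff] at hg ⊢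
    intro μ
    refine J_mono (hg μ) ?_
    have h1 : (a : ℚ) ≤ a' := by exact_mod_cast ha
    have h2 : (c : ℚ) ≤ c' := by exact_mod_cast hc
    have h3 : (c : ℚ) ^ μ ≤ (c' : ℚ) ^ μ := pow_le_pow_left₀ (by positivity) h2 μ
    exact mul_le_mul h1 h3 (by positivity) (by positivity)
  · intro n
    rw [SB_iff]
    intro μ
    by_cases h0 : μ = 0
    · subst h0
      have e : PowerSeries.coeff 0 (n : PowerSeries (MvPolynomial σ ℚ)) =
          (n : MvPolynomial σ ℚ) := by
        rw [PowerSeries.coeff_zero_eq_constantCoeff_apply]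
        exact map_natCast _ n
      rw [e]
      simpa using J_natCast (σ := σ) n
    · have e : PowerSeries.coeff μ (n : PowerSeries (MvPolynomial σ ℚ)) = 0 := by
        rw [← map_natCast (PowerSeries.C (R := MvPolynomial σ ℚ)) n, PowerSeries.coeff_C,
          if_neg h0]
      rw [e]
      exact J_mono J_zero (by positivity)
  · intro hL _ hg
    rw [SB_iff] at hg ⊢
    intro μ
    have hL' : (1 : ℚ) ≤ L := by exact_mod_cast hL
    have hg' : ∀ μ, J (PowerSeries.coeff μ g) (L : ℚ) := fun μ => by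
      simpa using hg μ
    refine J_mono (inv_J g L hL' hg' μ) ?_
    push_cast
    rw [one_mul]

end Pool.Agent.QPI.H23
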